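import Pool.Agent.U174.AK.Final
import Pool.Agent.U174.AK.RM
import Pool.Agent.U571.AK.LOSF
import Pool.Agent.U618.AK.GAM
import Pool.Agent.U978.AK.SYNE
import Pool.Agent.U7.AK.ULTH
import Pool.Agent.U438.AK.UCSAT
import Pool.Agent.U364.AK.URES
import Pool.Agent.U342.AK.LOS3
import Pool.Agent.U730.AK.HEN
import Pool.Agent.U27.AK.DOM
import Pool.Agent.U608.AK.TAY
import Pool.Agent.U94.AK.ROOT
import Pool.Agent.U928.AK.PLIM
import Pool.Agent.U212.AK.SIMP
import Pool.Agent.U884.AK.RES
import Pool.Agent.U588.AK.VAL
import Pool.Agent.U445.AK.IMM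
import Pool.Agent.U67.AK.SEC
import Pool.Agent.U88.AK.LT
import Pool.Agent.U460.AK.CLOS
import Pool.Agent.U317.AK.NICE
import Pool.Agent.U255.AK.GM
import Pool.Agent.U467.AK.CLAIM

/-!
# MP_65f174_lc, question Q2: the Ax–Kochen–Ershov transfer holds for every standard fragment

The standard fragments are `∃`, `∀∃`, `∃∀∃`, … (`n` alternating blocks of quantifiers, possibly empty, the last one
existential, in front of a quantifier-free matrix).

The three-sorted language of valued fields, its formulas and their truth are defined in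
`Pool/Agent/U174/AK/Stm.lean`: `FT`, `RT`, `VT` are the terms of the field sort, the residue field sort and the
value group sort, `Q3` the quantifier-free formulas, `F3 n` the formulas with `n` blocks (the variables of a block
may be of all three sorts), `Frag RQ n` and `Frag GQ n` the formulas with `n` blocks of the language of rings and of
the language of ordered abelian groups; `VTh O n`, `RTh n A`, `GTh n G` are the sets of the true sentences.  The
value group is written multiplicatively with the reverse order, `0` for `∞`, as in Mathlib.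
-/

set_option autoImplicit false

namespace Pool.Agent.Results.MP_65f174_lc.AllFragmentsTransfer

open IsLocalRing Pool.Agent.U174.AK

/-- Let `(K, O)` and `(L, P)` be henselian valued fields with residue fields of characteristic zero and let `n` be a
natural number.  If every ring sentence with `n` alternating blocks of quantifiers, the last one existential, which
is true in the residue field of `K` is true in the residue field of `L`, and the same holds for the value groups in
the language of ordered abelian groups, then every sentence with `n` alternating blocks, the last one existential,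
of the three-sorted language of valued fields which is true in `(K, O)` is true in `(L, P)`. -/
theorem result (K L : Type) [Field K] [Field L] (O : ValuationSubring K) (P : ValuationSubring L)
    (hO : HenselianLocalRing O) (hP : HenselianLocalRing P) (cO : CharZero (ResidueField O))
    (cP : CharZero (ResidueField P)) (n : ℕ) (hR : RTh n (ResidueField O) ⊆ RTh n (ResidueField P))
    (hG : GTh n O.ValueGroupˣ ⊆ GTh n P.ValueGroupˣ) : VTh O n ⊆ VTh P n := by
  have hSYN := Pool.Agent.U978.AK.t_SYN
  have hLOS := Pool.Agent.U571.AKLos.t_LOS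
  have hURES := Pool.Agent.U364.AK.t_URES
  have hSIMP := Pool.Agent.U212.AK.SIMP.t_SIMP
  have hDOM := Pool.Agent.U27.AK.t_DOM
  have hTAY := Pool.Agent.U608.AK.TAY.t_TAY hDOM
  have hROOT := Pool.Agent.U94.AK.ROOT.t_ROOT Pool.Agent.U730.AK.HEN.t_HEN hDOM hTAY
  have hIMM := Pool.Agent.U445.AK.IMM.t_IMM hSIMP Pool.Agent.U928.AK.PLIM.t_PLIM hDOM hTAY hROOT
  have hSEC := Pool.Agent.U67.AK.t_SEC
  have hLT := Pool.Agent.U88.AK.t_LT (Pool.Agent.U884.AKR.t_RES hSIMP) (Pool.Agent.U588.AK.t_VAL hSIMP) hSEC hIMM
  have hNICE := Pool.Agent.U317.AKNice.t_NICE hSEC Pool.Agent.U460.AK.t_CLOS Pool.Agent.U460.AK.t_HCH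
  have hCLAIM := Pool.Agent.U467.AK.t_CLAIM Pool.Agent.U978.AK.t_EMB (RM.t_RMOV hSYN)
    (Pool.Agent.U255.AK.t_GMOV hSYN) (Pool.Agent.U255.AK.t_PUR hSYN) hLT hNICE
  exact Fin.t_MAIN hLOS (Pool.Agent.U571.AKLos.t_FSAT hLOS) Pool.Agent.U618.AK.GAM.t_GAM hSYN
    Pool.Agent.U7.AK.ULTH.t_ULT Pool.Agent.U7.AK.ULTH.t_UHEN Pool.Agent.U438.AK.UCSAT.t_UCSAT hURES
    (Pool.Agent.U342.AK.LOS3.t_LOS3 hURES) hCLAIM (RM.t_RBASE hSYN) (Pool.Agent.U255.AK.t_GBASE hSYN)
    K L O P hO hP cO cP n hR hG

end Pool.Agent.Results.MP_65f174_lc.AllFragmentsTransfer
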